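import Mathlib

set_option autoImplicit false

/-!
# Compatible straightening laws on disjoint unions of chains

We formalise compatible monomial ASLs on the distributive lattice `J(P)` of poset ideals of a
finite poset `P` and prove that for a disjoint union of chains `P` every compatible ASL on `J(P)`
has the same straightening relations as the toric ring `K[O(P)]` of the order polytope.
-/

namespace Pool.Agent.Results.MP_9c3df6_al.UniqueCompatibleASL

open MvPolynomial

/-! ### Algebras with straightening laws -/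

section ASL

variable (K : Type) [Field K] {R : Type} [CommRing R] [Algebra K R] {L : Type} [PartialOrder L]

/-- Indices of the standard monomials: lists `α₁ ≤ α₂ ≤ ⋯ ≤ α_k` (the empty list gives the
monomial `1`). -/
def StdIndex (L : Type) [PartialOrder L] : Type := {l : List L // l.Pairwise (· ≤ ·)}

/-- The standard monomial `φ α₁ ⋯ φ α_k` of an index. -/
def stdMonomial (φ : L → R) (l : StdIndex L) : R := (l.1.map φ).prod

/-- `R`, graded by `𝒜`, is an algebra with straightening laws on the poset `L` over `K`, with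
respect to `φ : L → R`. -/
structure IsASL (𝒜 : ℕ → Submodule K R) (φ : L → R) : Prop where
  /-- the multiplication is graded -/
  one_mem : (1 : R) ∈ 𝒜 0
  mul_mem : ∀ i j a b, a ∈ 𝒜 i → b ∈ 𝒜 j → a * b ∈ 𝒜 (i + j)
  /-- `R` is the direct sum of its graded pieces -/
  isInternal : DirectSum.IsInternal 𝒜
  /-- the degree zero piece is `K` -/
  degree_zero : 𝒜 0 = Submodule.span K {1}
  /-- `φ` is injective -/
  injective : Function.Injective φ
  /-- each `φ α` is homogeneous of positive degree -/
  homogeneous : ∀ α, ∃ d, 0 < d ∧ φ α ∈ 𝒜 d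
  /-- the standard monomials are linearly independent over `K` ... -/
  linearIndependent : LinearIndependent K (stdMonomial φ : StdIndex L → R)
  /-- ... and span `R` -/
  span_eq_top : Submodule.span K (Set.range (stdMonomial φ : StdIndex L → R)) = ⊤
  /-- the straightening law: in the expansion of `φ α * φ β` for incomparable `α, β`, the
  smallest factor of each standard monomial that occurs is below both `α` and `β` -/
  straightening : ∀ α β, ¬ α ≤ β → ¬ β ≤ α → ∀ c : StdIndex L →₀ K,
    Finsupp.linearCombination K (stdMonomial φ) c = φ α * φ β →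
      ∀ l ∈ c.support, ∃ γ, l.1.head? = some γ ∧ γ ≤ α ∧ γ ≤ β

end ASL

/-! ### Monomial algebras attached to families of monomials indexed by `J(P)` -/

section Monomial

variable (K : Type) [Field K] {P : Type} [PartialOrder P] {σ : Type}

/-- The generator `w_I t` of `K[Ω]` in `S = K[x_s (s ∈ σ), t]`; the variable `t` is `X none`, the
variable `x_s` is `X (some s)`, and `w I` is the exponent vector of the monomial `w_I`. -/
noncomputable def gen (w : LowerSet P → (σ →₀ ℕ)) (I : LowerSet P) : MvPolynomial (Option σ) K :=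
  rename some (monomial (w I) (1 : K)) * X none

/-- The algebra `K[Ω]`, generated by the `w_I t`. -/
noncomputable def toricRing (w : LowerSet P → (σ →₀ ℕ)) : Subalgebra K (MvPolynomial (Option σ) K) :=
  Algebra.adjoin K (Set.range (gen K w))

/-- The map `φ : J(P) → K[Ω]`, `φ I = w_I t`. -/
noncomputable def phi (w : LowerSet P → (σ →₀ ℕ)) (I : LowerSet P) : toricRing K w :=
  ⟨gen K w I, Algebra.subset_adjoin ⟨I, rfl⟩⟩

/-- The grading of `K[Ω]` by `t`-degree. -/
noncomputable def tGrading (w : LowerSet P → (σ →₀ ℕ)) (d : ℕ) : Submodule K (toricRing K w) :=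
  (weightedHomogeneousSubmodule K (fun o : Option σ => if o.isNone then 1 else 0) d).comap
    (toricRing K w).val.toLinearMap

/-- `Ω` defines a compatible ASL on `J(P)`: `K[Ω]`, graded by `t`-degree, is an ASL on
`J(P)` via `φ`, and every straightening relation reads `φ(I) φ(I') = φ(J) φ(J')` with
`J ⊆ I ∩ I'` and `J' ⊇ I ∪ I'`. -/
structure IsCompatibleASL (w : LowerSet P → (σ →₀ ℕ)) : Prop where
  isASL : IsASL K (tGrading K w) (phi K w)
  compatible : ∀ I I' : LowerSet P, ¬ I ≤ I' → ¬ I' ≤ I → ∃ J J' : LowerSet P,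
    J ≤ I ⊓ I' ∧ I ⊔ I' ≤ J' ∧ phi K w I * phi K w I' = phi K w J * phi K w J'

/-- `φ(I) φ(I') = φ(J) φ(J')` is a straightening relation of `K[Ω]`: `I` and `I'` are incomparable
and the right-hand side is a standard monomial equal to the left-hand side. -/
def IsStraighteningRelation (w : LowerSet P → (σ →₀ ℕ)) (I I' J J' : LowerSet P) : Prop :=
  ¬ I ≤ I' ∧ ¬ I' ≤ I ∧ J ≤ J' ∧ phi K w I * phi K w I' = phi K w J * phi K w J'

/-- Two families are identified when their straightening relations coincide. -/
def Identified {σ' : Type} (w : LowerSet P → (σ →₀ ℕ)) (w' : LowerSet P → (σ' →₀ ℕ)) : Prop :=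
  ∀ I I' J J' : LowerSet P,
    IsStraighteningRelation K w I I' J J' ↔ IsStraighteningRelation K w' I I' J J'

open Classical in
/-- The monomials `w_I = ∏_{p ∈ I} x_p` of the toric ring `K[O(P)]` of the order polytope. -/
noncomputable def orderMonomials [Finite P] (I : LowerSet P) : P →₀ ℕ :=
  Finsupp.equivFunOnFinite.symm fun p => if p ∈ I then 1 else 0

end Monomial

/-- A poset is a disjoint union of chains: there is a labelling of its elements such that two
elements are comparable exactly when they have the same label. -/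
def IsDisjointUnionOfChains (P : Type) [PartialOrder P] : Prop :=
  ∃ (ι : Type) (c : P → ι), ∀ p q, (p ≤ q ∨ q ≤ p) ↔ c p = c q

/-! ### The proof -/

section Proof

variable {K : Type} [Field K] {P : Type} [PartialOrder P] {σ : Type}

theorem gen_eq (w : LowerSet P → (σ →₀ ℕ)) (I : LowerSet P) :
    gen K w I = monomial ((w I).mapDomain some + Finsupp.single none 1) (1 : K) := by
  rw [gen, rename_monomial, X, monomial_mul, one_mul]

theorem phi_mul_eq_iff (w : LowerSet P → (σ →₀ ℕ)) (I I' J J' : LowerSet P) :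
    phi K w I * phi K w I' = phi K w J * phi K w J' ↔ w I + w I' = w J + w J' := by
  have hinj : Function.Injective (Finsupp.mapDomain (M := ℕ) (some : σ → Option σ)) :=
    Finsupp.mapDomain_injective (Option.some_injective σ)
  rw [← Subtype.coe_inj]
  show gen K w I * gen K w I' = gen K w J * gen K w J' ↔ _
  simp only [gen_eq, monomial_mul, one_mul]
  rw [monomial_left_inj one_ne_zero]
  constructor
  · intro h
    apply hinj
    rw [Finsupp.mapDomain_add, Finsupp.mapDomain_add]
    have h2 : ∀ a b c d e : Option σ →₀ ℕ, a + e + (b + e) = c + e + (d + e) → a + b = c + d := by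
      intro a b c d e h
      have : (a + b) + (e + e) = (c + d) + (e + e) := by
        rw [add_add_add_comm a b e e, add_add_add_comm c d e e]; exact h
      exact add_right_cancel this
    exact h2 _ _ _ _ _ h
  · intro h
    rw [add_add_add_comm, ← Finsupp.mapDomain_add, h, Finsupp.mapDomain_add, add_add_add_comm]

theorem phi_eq_iff (w : LowerSet P → (σ →₀ ℕ)) (I J : LowerSet P) :
    phi K w I = phi K w J ↔ w I = w J := by
  have hinj : Function.Injective (Finsupp.mapDomain (M := ℕ) (some : σ → Option σ)) :=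
    Finsupp.mapDomain_injective (Option.some_injective σ)
  rw [← Subtype.coe_inj]
  show gen K w I = gen K w J ↔ _
  simp only [gen_eq]
  rw [monomial_left_inj one_ne_zero]
  constructor
  · intro h
    exact hinj (add_right_cancel h)
  · intro h
    rw [h]

/-- An injective increasing self-map of a finite poset is the identity. -/
theorem eq_id_of_injective_of_le {L : Type} [PartialOrder L] [Finite L] (α : L → L)
    (h1 : Function.Injective α) (h2 : ∀ x, x ≤ α x) (x : L) : α x = x := by
  have hit : ∀ n y, y ≤ α^[n] y := by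
    intro n
    induction n with
    | zero => intro y; exact le_refl _
    | succ n ih =>
      intro y
      rw [Function.iterate_succ_apply']
      exact (ih y).trans (h2 _)
  have hper : x ∈ Function.periodicPts α :=
    Function.Injective.mem_periodicPts h1 x
  obtain ⟨n, hn, hx⟩ := hper
  obtain ⟨m, rfl⟩ : ∃ m, n = m + 1 := ⟨n - 1, by omega⟩
  have h3 : α^[m] (α x) = x := by
    rw [← Function.iterate_succ_apply]; exact hx
  have h4 : α x ≤ x := by
    calc α x ≤ α^[m] (α x) := hit m _
      _ = x := h3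
  exact le_antisymm h4 (h2 x)

variable [Finite P]

/-- For a splitting of the top element into two complementary lower sets the family `w` is
additive. -/
theorem additive_of_compl {w : LowerSet P → (σ →₀ ℕ)} (hinj : Function.Injective w)
    (hw : ∀ I I' : LowerSet P, ¬ I ≤ I' → ¬ I' ≤ I → ∃ J J' : LowerSet P,
      J ≤ I ⊓ I' ∧ I ⊔ I' ≤ J' ∧ w I + w I' = w J + w J')
    {A B : LowerSet P} (hAB : A ⊓ B = ⊥) (hAB' : A ⊔ B = ⊤) (I I' : LowerSet P) (hI : I ≤ A)
    (hI' : I' ≤ B) : w I + w I' = w ⊥ + w (I ⊔ I') := by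
  -- first claim
  have claim1 : ∀ (A B : LowerSet P), A ⊓ B = ⊥ → A ⊔ B = ⊤ → ∀ I ≤ A,
      w I + w B = w ⊥ + w (I ⊔ B) := by
    intro A B hAB hAB' I hI
    have key : ∀ I : Set.Iic A, ∃ I' : Set.Iic A, (I : LowerSet P) ≤ I' ∧
        w I + w B = w ⊥ + w ((I' : LowerSet P) ⊔ B) := by
      rintro ⟨I, hI⟩
      have hIB : I ⊓ B = ⊥ := by
        rw [eq_bot_iff, ← hAB]; exact inf_le_inf_right B hI
      by_cases h1 : I ≤ B
      · have : I = ⊥ := by rw [← hIB]; exact (inf_eq_left.mpr h1).symm
        subst this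
        exact ⟨⟨⊥, Set.mem_Iic.mpr bot_le⟩, le_refl _, by simp⟩
      · by_cases h2 : B ≤ I
        · have : B = ⊥ := by rw [← hIB]; exact (inf_eq_right.mpr h2).symm
          subst this
          exact ⟨⟨I, hI⟩, le_refl _, by simp [add_comm]⟩
        · obtain ⟨J, J', hJ, hJ', hJJ⟩ := hw I B h1 h2
          have hJb : J = ⊥ := by rw [eq_bot_iff, ← hIB]; exact hJ
          refine ⟨⟨J' ⊓ A, Set.mem_Iic.mpr inf_le_right⟩, le_inf (le_sup_left.trans hJ') hI, ?_⟩
          have : (J' ⊓ A) ⊔ B = J' := by
            rw [sup_inf_right, hAB', inf_top_eq]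
            exact sup_eq_left.mpr (le_sup_right.trans hJ')
          simp only [this]
          rw [hJJ, hJb]
    choose α hα1 hα2 using key
    have hαinj : Function.Injective α := by
      intro x y hxy
      have h1 := hα2 x
      have h2 := hα2 y
      rw [hxy, ← h2] at h1
      exact Subtype.ext (hinj (add_right_cancel h1))
    have := eq_id_of_injective_of_le α hαinj hα1 ⟨I, hI⟩
    have h3 := hα2 ⟨I, hI⟩
    rw [this] at h3
    exact h3
  have cA := claim1 A B hAB hAB'
  have cB := claim1 B A (by rw [inf_comm]; exact hAB) (by rw [sup_comm]; exact hAB')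
  by_cases h1 : I ≤ I'
  · have : I = ⊥ := by
      rw [eq_bot_iff, ← hAB]; exact le_inf hI (h1.trans hI')
    subst this; simp
  by_cases h2 : I' ≤ I
  · have : I' = ⊥ := by
      rw [eq_bot_iff, ← hAB]; exact le_inf (h2.trans hI) hI'
    subst this; simp [add_comm]
  by_cases h3 : A ≤ I
  · have : I = A := le_antisymm hI h3
    subst this
    rw [add_comm, sup_comm]
    exact cB I' hI'
  by_cases h4 : B ≤ I'
  · have : I' = B := le_antisymm hI' h4
    subst this
    exact cA I hI
  obtain ⟨J, J', hJ, hJ', hJJ⟩ := hw I I' h1 h2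
  have hJb : J = ⊥ := by
    rw [eq_bot_iff, ← hAB]; exact hJ.trans (inf_le_inf hI hI')
  -- the auxiliary pair
  have hIB : (I ⊔ B) ⊓ A = I := by
    rw [inf_sup_right, inf_comm B A, hAB, sup_bot_eq]; exact inf_eq_left.mpr hI
  have hI'A : (A ⊔ I') ⊓ B = I' := by
    rw [inf_sup_right, hAB, bot_sup_eq]; exact inf_eq_left.mpr hI'
  have hX : ¬ (I ⊔ B) ≤ (A ⊔ I') := by
    intro hc
    apply h4
    calc B = B ⊓ B := (inf_idem B).symm
      _ ≤ (A ⊔ I') ⊓ B := inf_le_inf_right B (le_sup_right.trans hc)
      _ = I' := hI'A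
  have hY : ¬ (A ⊔ I') ≤ (I ⊔ B) := by
    intro hc
    apply h3
    calc A = A ⊓ A := (inf_idem A).symm
      _ ≤ (I ⊔ B) ⊓ A := inf_le_inf_right A (le_sup_left.trans hc)
      _ = I := hIB
  obtain ⟨J1, J1', hJ1, hJ1', hJJ1⟩ := hw _ _ hX hY
  have hinf : (I ⊔ B) ⊓ (A ⊔ I') = I ⊔ I' := by
    apply le_antisymm
    · rw [inf_sup_left]
      apply sup_le
      · rw [hIB]; exact le_sup_left
      · exact inf_le_right.trans le_sup_right
    · exact sup_le (le_inf le_sup_left (hI.trans le_sup_left))
        (le_inf (hI'.trans le_sup_right) le_sup_right)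
  have hsup : (I ⊔ B) ⊔ (A ⊔ I') = ⊤ := by
    rw [eq_top_iff, ← hAB']
    exact sup_le (le_sup_left.trans le_sup_right) (le_sup_right.trans le_sup_left)
  have hJ1t : J1' = ⊤ := by
    rw [eq_top_iff, ← hsup]; exact hJ1'
  have e1 := cA I hI
  have e2 := cB I' hI'
  have e3 := cA A le_rfl
  rw [hAB'] at e3
  rw [sup_comm I' A] at e2
  -- conclude `w J' = w J1`
  have e4 : w J' = w J1 := by
    rw [hJb] at hJJ
    rw [hJ1t] at hJJ1
    have : (w ⊥ + w ⊥) + (w J' + w ⊤) = (w ⊥ + w ⊥) + (w J1 + w ⊤) := by
      calc (w ⊥ + w ⊥) + (w J' + w ⊤) = (w ⊥ + w J') + (w ⊥ + w ⊤) := add_add_add_comm _ _ _ _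
        _ = (w I + w I') + (w A + w B) := by rw [hJJ, e3]
        _ = (w I + w B) + (w I' + w A) := by
            rw [add_comm (w A) (w B)]; exact add_add_add_comm _ _ _ _
        _ = (w ⊥ + w (I ⊔ B)) + (w ⊥ + w (A ⊔ I')) := by rw [e1, e2]
        _ = (w ⊥ + w ⊥) + (w (I ⊔ B) + w (A ⊔ I')) := add_add_add_comm _ _ _ _
        _ = (w ⊥ + w ⊥) + (w J1 + w ⊤) := by rw [hJJ1]
    exact add_right_cancel (add_left_cancel this)
  have e5 : J' = J1 := hinj e4
  have e6 : J' = I ⊔ I' := by
    apply le_antisymm _ hJ'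
    rw [e5, ← hinf]; exact hJ1
  rw [hJJ, hJb, e6]

/-- The key identity: for a disjoint union of chains, `w` is modular. -/
theorem modular_of_compatible {w : LowerSet P → (σ →₀ ℕ)} (hinj : Function.Injective w)
    (hw : ∀ I I' : LowerSet P, ¬ I ≤ I' → ¬ I' ≤ I → ∃ J J' : LowerSet P,
      J ≤ I ⊓ I' ∧ I ⊔ I' ≤ J' ∧ w I + w I' = w J + w J')
    (hP : IsDisjointUnionOfChains P) (I I' : LowerSet P) :
    w I + w I' = w (I ⊓ I') + w (I ⊔ I') := by
  classical
  obtain ⟨ι, c, hc⟩ := hP
  have hcle : ∀ p q, p ≤ q → c p = c q := fun p q h => (hc p q).mp (Or.inl h)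
  -- the part of a lower set lying over a set of labels
  let T : Set ι → LowerSet P := fun S => ⟨c ⁻¹' S, by
    intro p q hqp hp
    have := hcle q p hqp
    rw [Set.mem_preimage] at hp ⊢
    rwa [this]⟩
  have hT : ∀ S p, p ∈ T S ↔ c p ∈ S := fun _ _ => Iff.rfl
  have hT1 : ∀ S, T S ⊓ T Sᶜ = ⊥ := by
    intro S
    refine SetLike.ext fun p => ?_
    simp [LowerSet.mem_inf_iff, hT]
  have hT2 : ∀ S, T S ⊔ T Sᶜ = ⊤ := by
    intro S
    refine SetLike.ext fun p => ?_
    simp [LowerSet.mem_sup_iff, hT, em]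
  have key : ∀ S : Finset ι, ∀ I I' : LowerSet P, w (I ⊓ T S) + w (I' ⊓ T S) =
      w ((I ⊓ I') ⊓ T S) + w ((I ⊔ I') ⊓ T S) := by
    intro S
    induction S using Finset.induction_on with
    | empty =>
      intro I I'
      have h0 : T ((∅ : Finset ι) : Set ι) = ⊥ := by
        refine SetLike.ext fun p => ?_
        simp [hT]
      simp only [h0, inf_bot_eq]
    | insert a S ha ih =>
      intro I I'
      have hsplit : ∀ X : LowerSet P, w (X ⊓ T S) + w (X ⊓ T {a}) =
          w ⊥ + w (X ⊓ T ((insert a S : Finset ι) : Set ι)) := by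
        intro X
        have h1 : X ⊓ T ((insert a S : Finset ι) : Set ι) = (X ⊓ T S) ⊔ (X ⊓ T {a}) := by
          rw [← inf_sup_left]
          congr 1
          refine SetLike.ext fun p => ?_
          rw [LowerSet.mem_sup_iff, hT, hT, hT, Finset.coe_insert, Set.mem_insert_iff,
            Set.mem_singleton_iff, or_comm]
        rw [h1]
        refine additive_of_compl hinj hw (hT1 S) (hT2 S) _ _ inf_le_right ?_
        refine inf_le_right.trans ?_
        intro p hp
        rw [SetLike.mem_coe, hT, Set.mem_singleton_iff] at hp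
        rw [SetLike.mem_coe, hT, Set.mem_compl_iff, hp]
        exact_mod_cast ha
      have hone : w (I ⊓ T {a}) + w (I' ⊓ T {a}) =
          w ((I ⊓ I') ⊓ T {a}) + w ((I ⊔ I') ⊓ T {a}) := by
        have htot : (I ⊓ T {a}) ≤ (I' ⊓ T {a}) ∨ (I' ⊓ T {a}) ≤ (I ⊓ T {a}) := by
          by_contra hcon
          push Not at hcon
          obtain ⟨h1, h2⟩ := hcon
          obtain ⟨p, hp, hp'⟩ := Set.not_subset.mp (fun h => h1 (LowerSet.coe_subset_coe.mp h))
          obtain ⟨q, hq, hq'⟩ := Set.not_subset.mp (fun h => h2 (LowerSet.coe_subset_coe.mp h))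
          simp only [LowerSet.coe_inf, Set.mem_inter_iff, SetLike.mem_coe, not_and] at hp hp' hq hq'
          have hpa : c p = a := (hT _ _).mp hp.2
          have hqa : c q = a := (hT _ _).mp hq.2
          rcases (hc p q).mpr (hpa.trans hqa.symm) with h | h
          · exact hp' (I'.lower h hq.1) hp.2
          · exact hq' (I.lower h hp.1) hq.2
        have e1 : (I ⊓ I') ⊓ T {a} = (I ⊓ T {a}) ⊓ (I' ⊓ T {a}) := by
          rw [inf_inf_inf_comm, inf_idem]
        have e2 : (I ⊔ I') ⊓ T {a} = (I ⊓ T {a}) ⊔ (I' ⊓ T {a}) := inf_sup_right _ _ _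
        rw [e1, e2]
        rcases htot with h | h
        · rw [inf_eq_left.mpr h, sup_eq_right.mpr h]
        · rw [inf_eq_right.mpr h, sup_eq_left.mpr h, add_comm]
      have h5 : (w ⊥ + w ⊥) + (w (I ⊓ T ((insert a S : Finset ι) : Set ι)) +
          w (I' ⊓ T ((insert a S : Finset ι) : Set ι))) =
          (w ⊥ + w ⊥) + (w ((I ⊓ I') ⊓ T ((insert a S : Finset ι) : Set ι)) +
          w ((I ⊔ I') ⊓ T ((insert a S : Finset ι) : Set ι))) := by
        rw [add_add_add_comm, ← hsplit, ← hsplit, add_add_add_comm (w ⊥) (w ⊥), ← hsplit, ← hsplit,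
          add_add_add_comm, add_add_add_comm (w ((I ⊓ I') ⊓ T S)), ih, hone]
      exact add_left_cancel h5
  haveI := Fintype.ofFinite P
  have hfull : T ((Finset.univ.image c : Finset ι) : Set ι) = ⊤ := by
    refine SetLike.ext fun p => ?_
    simp [hT]
  have := key (Finset.univ.image c) I I'
  simpa only [hfull, inf_top_eq] using this

theorem order_relation_iff (I I' J J' : LowerSet P) (hJ : J ≤ J') :
    orderMonomials I + orderMonomials I' = orderMonomials J + orderMonomials J' ↔
      J = I ⊓ I' ∧ J' = I ⊔ I' := by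
  classical
  constructor
  · intro h
    have hp : ∀ p, (if p ∈ I then 1 else 0) + (if p ∈ I' then 1 else 0) =
        (if p ∈ J then 1 else 0) + (if p ∈ J' then 1 else 0) := by
      intro p
      have := DFunLike.congr_fun h p
      simpa [orderMonomials] using this
    constructor
    · ext p
      have h1 := hp p
      have h2 : p ∈ J → p ∈ J' := fun h => hJ h
      simp only [SetLike.mem_coe, LowerSet.mem_inf_iff]
      by_cases a : p ∈ I <;> by_cases b : p ∈ I' <;> by_cases d : p ∈ J <;>
        by_cases e : p ∈ J' <;> simp_all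
    · ext p
      have h1 := hp p
      have h2 : p ∈ J → p ∈ J' := fun h => hJ h
      simp only [SetLike.mem_coe, LowerSet.mem_sup_iff]
      by_cases a : p ∈ I <;> by_cases b : p ∈ I' <;> by_cases d : p ∈ J <;>
        by_cases e : p ∈ J' <;> simp_all
  · rintro ⟨rfl, rfl⟩
    ext p
    simp only [orderMonomials, Finsupp.coe_add, Pi.add_apply, Finsupp.equivFunOnFinite_symm_apply_apply,
      LowerSet.mem_inf_iff, LowerSet.mem_sup_iff]
    by_cases a : p ∈ I <;> by_cases b : p ∈ I' <;> simp [a, b]

end Proof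

/-- **Main theorem.** If `P` is a finite disjoint union of chains, then every compatible ASL on
`J(P)` over a field `K` has the same straightening relations as `K[O(P)]`. -/
theorem result (K : Type) [Field K] (P : Type) [PartialOrder P] [Finite P]
    (hP : IsDisjointUnionOfChains P) (σ : Type) [Finite σ] (w : LowerSet P → (σ →₀ ℕ))
    (hw : IsCompatibleASL K w) : Identified K w (orderMonomials (P := P)) := by
  have hinj : Function.Injective w := by
    intro I J h
    exact hw.isASL.injective ((phi_eq_iff (K := K) w I J).mpr h)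
  have hcomp : ∀ I I' : LowerSet P, ¬ I ≤ I' → ¬ I' ≤ I → ∃ J J' : LowerSet P,
      J ≤ I ⊓ I' ∧ I ⊔ I' ≤ J' ∧ w I + w I' = w J + w J' := by
    intro I I' h h'
    obtain ⟨J, J', h1, h2, h3⟩ := hw.compatible I I' h h'
    exact ⟨J, J', h1, h2, (phi_mul_eq_iff w I I' J J').mp h3⟩
  have hmod := modular_of_compatible hinj hcomp hP
  intro I I' J J'
  unfold IsStraighteningRelation
  rw [phi_mul_eq_iff, phi_mul_eq_iff]
  constructor
  · rintro ⟨h1, h2, h3, h4⟩
    refine ⟨h1, h2, h3, ?_⟩
    rw [order_relation_iff I I' J J' h3]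
    -- uniqueness of the standard expression
    have hstd : phi K w J * phi K w J' = phi K w (I ⊓ I') * phi K w (I ⊔ I') := by
      rw [phi_mul_eq_iff, ← h4, hmod]
    let l1 : StdIndex (LowerSet P) := ⟨[J, J'], by simpa using h3⟩
    let l2 : StdIndex (LowerSet P) := ⟨[I ⊓ I', I ⊔ I'],
      List.pairwise_pair.mpr (inf_le_left.trans (le_sup_left : I ≤ I ⊔ I'))⟩
    have h5 : stdMonomial (phi K w) l1 = stdMonomial (phi K w) l2 := by
      simpa [stdMonomial, l1, l2] using hstd
    have h6 : l1 = l2 := hw.isASL.linearIndependent.injective h5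
    have h7 : [J, J'] = [I ⊓ I', I ⊔ I'] := congrArg Subtype.val h6
    simpa using h7
  · rintro ⟨h1, h2, h3, h4⟩
    refine ⟨h1, h2, h3, ?_⟩
    rw [order_relation_iff I I' J J' h3] at h4
    obtain ⟨rfl, rfl⟩ := h4
    exact hmod I I'

end Pool.Agent.Results.MP_9c3df6_al.UniqueCompatibleASL
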